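import Mathlib
import Pool.Agent.TH119.MX.Gal

/-!
# Odd functions on a Galois orbit of Weil numbers
-/

set_option autoImplicit false

namespace Pool.Agent.K7.H59.PD

open Polynomial Module ComplexConjugate

/-- Field automorphisms act on the finitely supported functions on `ℂ`. -/
noncomputable def act (σ : ℂ ≃+* ℂ) : (ℂ →₀ ℚ) →ₗ[ℚ] (ℂ →₀ ℚ) := Finsupp.lmapDomain ℚ ℚ σ

theorem act_apply (σ : ℂ ≃+* ℂ) (a : ℂ →₀ ℚ) (x : ℂ) : act σ a (σ x) = a x :=
  Finsupp.mapDomain_apply σ.injective a x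

theorem act_apply' (σ : ℂ ≃+* ℂ) (a : ℂ →₀ ℚ) (x : ℂ) : act σ a x = a (σ.symm x) := by
  conv_lhs => rw [← σ.apply_symm_apply x]
  exact act_apply σ a _

theorem act_mul (σ τ : ℂ ≃+* ℂ) (a : ℂ →₀ ℚ) : act (τ.trans σ) a = act σ (act τ a) := by
  ext x
  rw [act_apply', act_apply', act_apply']
  rfl

theorem act_inj (σ : ℂ ≃+* ℂ) : Function.Injective (act σ) :=
  Finsupp.mapDomain_injective σ.injective

theorem act_single (σ : ℂ ≃+* ℂ) (x : ℂ) (c : ℚ) :
    act σ (Finsupp.single x c) = Finsupp.single (σ x) c := by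
  simp [act, Finsupp.lmapDomain_apply]

/-- the odd function supported at `x` and its complex conjugate -/
noncomputable def e (x : ℂ) : ℂ →₀ ℚ := Finsupp.single x 1 - Finsupp.single (conj x) 1

theorem e_self {x : ℂ} (h : conj x ≠ x) : e x x = 1 := by
  simp [e, h]

theorem e_apply (x y : ℂ) : e x y = (if x = y then 1 else 0) - (if conj x = y then 1 else 0) := by
  simp [e, Finsupp.single_apply]

/-- A Galois orbit of Weil numbers. -/
structure Orbit (q : ℕ) (R : Set ℂ) : Prop where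
  fin : R.Finite
  ne : R.Nonempty
  stable : ∀ (σ : ℂ ≃+* ℂ), ∀ x ∈ R, σ x ∈ R
  trans : ∀ x ∈ R, ∀ y ∈ R, ∃ σ : ℂ ≃+* ℂ, σ x = y
  norm : ∀ x ∈ R, x * conj x = q
  nonreal : ∀ x ∈ R, conj x ≠ x
  pos : 0 < q

/-- the odd functions on `R` -/
def V (R : Set ℂ) : Submodule ℚ (ℂ →₀ ℚ) where
  carrier := {a | (∀ x, x ∉ R → a x = 0) ∧ ∀ x, a (conj x) = - a x}
  add_mem' := by
    intro a b ha hb
    refine ⟨fun x hx => ?_, fun x => ?_⟩
    · rw [Finsupp.add_apply, ha.1 x hx, hb.1 x hx, add_zero]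
    · rw [Finsupp.add_apply, Finsupp.add_apply, ha.2, hb.2]
      ring
  zero_mem' := by simp
  smul_mem' := by
    intro c a ha
    refine ⟨fun x hx => ?_, fun x => ?_⟩
    · rw [Finsupp.smul_apply, ha.1 x hx, smul_zero]
    · rw [Finsupp.smul_apply, Finsupp.smul_apply, ha.2, smul_neg]

theorem mem_V {R : Set ℂ} {a : ℂ →₀ ℚ} :
    a ∈ V R ↔ (∀ x, x ∉ R → a x = 0) ∧ ∀ x, a (conj x) = - a x := Iff.rfl

/-- stable under all automorphisms -/
def Stable (T : Submodule ℚ (ℂ →₀ ℚ)) : Prop := ∀ σ : ℂ ≃+* ℂ, ∀ a ∈ T, act σ a ∈ T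

section orbit

variable {q : ℕ} {R : Set ℂ} (h : Orbit q R)

include h

theorem Orbit.ne_zero {x : ℂ} (hx : x ∈ R) : x ≠ 0 := by
  rintro rfl
  have h1 := h.norm 0 hx
  rw [zero_mul] at h1
  have h2 : (q : ℂ) ≠ 0 := by exact_mod_cast h.pos.ne'
  exact h2 h1.symm

theorem Orbit.conj_mem {x : ℂ} (hx : x ∈ R) : conj x ∈ R :=
  h.stable (starRingAut : ℂ ≃+* ℂ) x hx

theorem Orbit.conj_mem_iff (x : ℂ) : conj x ∈ R ↔ x ∈ R := by
  refine ⟨fun hx => ?_, h.conj_mem⟩
  have h1 := h.conj_mem hx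
  rwa [Complex.conj_conj] at h1

theorem Orbit.comm (σ : ℂ ≃+* ℂ) {x : ℂ} (hx : x ∈ R) : σ (conj x) = conj (σ x) := by
  have h1 := congrArg σ (h.norm x hx)
  rw [map_mul, map_natCast] at h1
  have h2 := h.norm _ (h.stable σ x hx)
  rw [← h2] at h1
  exact mul_left_cancel₀ (h.ne_zero (h.stable σ x hx)) h1

theorem Orbit.mem_iff (σ : ℂ ≃+* ℂ) (x : ℂ) : σ x ∈ R ↔ x ∈ R := by
  refine ⟨fun hx => ?_, h.stable σ x⟩
  have h1 := h.stable σ.symm _ hx
  rwa [σ.symm_apply_apply] at h1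

theorem Orbit.e_mem {x : ℂ} (hx : x ∈ R) : e x ∈ V R := by
  refine ⟨fun y hy => ?_, fun y => ?_⟩
  · have h1 : x ≠ y := fun h1 => hy (h1 ▸ hx)
    have h2 : conj x ≠ y := fun h1 => hy (h1 ▸ h.conj_mem hx)
    rw [e_apply, if_neg h1, if_neg h2, sub_zero]
  · rw [e_apply, e_apply]
    have h1 : (x = conj y) ↔ (conj x = y) := by
      constructor
      · rintro rfl; exact Complex.conj_conj y
      · rintro rfl; exact (Complex.conj_conj x).symm
    have h2 : (conj x = conj y) ↔ (x = y) := (starRingEnd ℂ).injective.eq_iff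
    simp only [h1, h2]
    ring

theorem Orbit.act_e (σ : ℂ ≃+* ℂ) {x : ℂ} (hx : x ∈ R) : act σ (e x) = e (σ x) := by
  rw [e, e, map_sub, act_single, act_single, h.comm σ hx]

theorem Orbit.act_mem (σ : ℂ ≃+* ℂ) {a : ℂ →₀ ℚ} (ha : a ∈ V R) : act σ a ∈ V R := by
  refine ⟨fun x hx => ?_, fun x => ?_⟩
  · rw [act_apply']
    refine ha.1 _ (fun h1 => hx ?_)
    have h2 := h.stable σ _ h1
    rwa [σ.apply_symm_apply] at h2
  · rw [act_apply', act_apply']
    by_cases hx : x ∈ R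
    · rw [h.comm σ.symm hx, ha.2]
    · rw [ha.1 _ (fun h1 => hx ((h.mem_iff σ.symm x).1 h1)),
        ha.1 _ (fun h1 => hx ((h.conj_mem_iff x).1 ((h.mem_iff σ.symm _).1 h1))), neg_zero]

theorem Orbit.stable_V : Stable (V R) := fun σ _ ha => h.act_mem σ ha

/-- an odd function is a combination of the `e x` -/
theorem Orbit.eq_sum {a : ℂ →₀ ℚ} (ha : a ∈ V R) :
    a = (1 / 2 : ℚ) • ∑ x ∈ h.fin.toFinset, a x • e x := by
  ext y
  rw [Finsupp.smul_apply, Finsupp.finsetSum_apply]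
  simp only [Finsupp.smul_apply, e_apply, smul_eq_mul, mul_sub, Finset.sum_sub_distrib, mul_ite,
    mul_one, mul_zero]
  rw [Finset.sum_ite_eq' h.fin.toFinset y]
  have h1 : ∑ x ∈ h.fin.toFinset, (if conj x = y then a x else 0) =
      if conj y ∈ h.fin.toFinset then a (conj y) else 0 := by
    rw [← Finset.sum_ite_eq' h.fin.toFinset (conj y)]
    refine Finset.sum_congr rfl fun x _ => ?_
    have h2 : (conj x = y) ↔ (x = conj y) := by
      constructor
      · rintro rfl; exact (Complex.conj_conj x).symm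
      · rintro rfl; exact Complex.conj_conj y
    simp only [h2]
  rw [h1]
  by_cases hy : y ∈ R
  · rw [if_pos (h.fin.mem_toFinset.2 hy), if_pos (h.fin.mem_toFinset.2 (h.conj_mem hy)), ha.2]
    ring
  · rw [if_neg (fun h2 => hy (h.fin.mem_toFinset.1 h2)),
      if_neg (fun h2 => hy ((h.conj_mem_iff y).1 (h.fin.mem_toFinset.1 h2))), ha.1 y hy]
    ring

theorem Orbit.V_le {T : Submodule ℚ (ℂ →₀ ℚ)} (hT : ∀ x ∈ R, e x ∈ T) : V R ≤ T := by
  intro a ha
  rw [h.eq_sum ha]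
  exact T.smul_mem _ (T.sum_mem fun x hx => T.smul_mem _ (hT x (h.fin.mem_toFinset.1 hx)))

theorem Orbit.V_le_one {T : Submodule ℚ (ℂ →₀ ℚ)} (hS : Stable T) {x : ℂ} (hx : x ∈ R)
    (hT : e x ∈ T) : V R ≤ T := by
  refine h.V_le fun y hy => ?_
  obtain ⟨σ, rfl⟩ := h.trans x hx y hy
  rw [← h.act_e σ hx]
  exact hS σ _ hT

/-- restriction to the upper half plane -/
noncomputable def half (R : Set ℂ) : V R →ₗ[ℚ] ({x : ℂ | x ∈ R ∧ 0 < x.im} → ℚ) where
  toFun a := fun x => (a : ℂ →₀ ℚ) x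
  map_add' a b := by ext x; simp
  map_smul' c a := by ext x; simp

theorem Orbit.half_bij : Function.Bijective (half R) := by
  constructor
  · rw [← LinearMap.ker_eq_bot, LinearMap.ker_eq_bot']
    intro a ha
    have h1 : ∀ x ∈ R, 0 < x.im → (a : ℂ →₀ ℚ) x = 0 := fun x hx hi =>
      congrFun ha ⟨x, hx, hi⟩
    apply Subtype.ext
    ext x
    change (a : ℂ →₀ ℚ) x = 0
    by_cases hx : x ∈ R
    · rcases lt_trichotomy x.im 0 with h2 | h2 | h2
      · have h3 := h1 (conj x) (h.conj_mem hx) (by rw [Complex.conj_im]; linarith)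
        rw [a.2.2 x] at h3
        linarith
      · exact absurd (Complex.conj_eq_iff_im.2 h2) (h.nonreal x hx)
      · exact h1 x hx h2
    · exact a.2.1 x hx
  · intro f
    have hfin : {x : ℂ | x ∈ R ∧ 0 < x.im}.Finite := h.fin.subset fun x hx => hx.1
    have _ : Fintype {x : ℂ | x ∈ R ∧ 0 < x.im} := hfin.fintype
    refine ⟨∑ x : {x : ℂ | x ∈ R ∧ 0 < x.im}, f x • (⟨e x, h.e_mem x.2.1⟩ : V R), ?_⟩
    ext y
    change ((∑ x : {x : ℂ | x ∈ R ∧ 0 < x.im}, f x • (⟨e x, h.e_mem x.2.1⟩ : V R) : V R) :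
      ℂ →₀ ℚ) y = f y
    rw [AddSubmonoidClass.coe_finsetSum, Finsupp.finsetSum_apply]
    rw [Finset.sum_eq_single y]
    · change (f y • e (y : ℂ)) y = f y
      rw [Finsupp.smul_apply, e_self (h.nonreal y y.2.1), smul_eq_mul, mul_one]
    · intro x _ hxy
      change (f x • e (x : ℂ)) y = 0
      rw [Finsupp.smul_apply, e_apply, if_neg (fun h1 => hxy (Subtype.ext h1)), if_neg, sub_zero,
        smul_zero]
      intro h1
      have h2 := x.2.2
      have h3 := y.2.2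
      rw [← h1, Complex.conj_im] at h3
      linarith
    · intro h1
      exact absurd (Finset.mem_univ y) h1

theorem Orbit.finiteDimensional : FiniteDimensional ℚ (V R) := by
  have hfin : {x : ℂ | x ∈ R ∧ 0 < x.im}.Finite := h.fin.subset fun x hx => hx.1
  have _ : Finite {x : ℂ | x ∈ R ∧ 0 < x.im} := hfin
  exact FiniteDimensional.of_injective (half R) h.half_bij.1

theorem Orbit.card_half {g : ℕ} (hg : R.ncard = 2 * g) :
    Nat.card {x : ℂ | x ∈ R ∧ 0 < x.im} = g := by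
  have hfin : {x : ℂ | x ∈ R ∧ 0 < x.im}.Finite := h.fin.subset fun x hx => hx.1
  have h1 : R = {x : ℂ | x ∈ R ∧ 0 < x.im} ∪ (fun x => conj x) '' {x : ℂ | x ∈ R ∧ 0 < x.im} := by
    ext x
    constructor
    · intro hx
      rcases lt_trichotomy x.im 0 with h2 | h2 | h2
      · refine Or.inr ⟨conj x, ⟨h.conj_mem hx, by rw [Complex.conj_im]; linarith⟩,
          Complex.conj_conj x⟩
      · exact absurd (Complex.conj_eq_iff_im.2 h2) (h.nonreal x hx)
      · exact Or.inl ⟨hx, h2⟩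
    · rintro (hx | ⟨y, hy, rfl⟩)
      · exact hx.1
      · exact h.conj_mem hy.1
  have h2 : Disjoint {x : ℂ | x ∈ R ∧ 0 < x.im}
      ((fun x => conj x) '' {x : ℂ | x ∈ R ∧ 0 < x.im}) := by
    rw [Set.disjoint_left]
    rintro x hx ⟨y, hy, rfl⟩
    have h3 := hx.2
    have h4 := hy.2
    simp only [Complex.conj_im] at h3
    linarith
  have h3 := Set.ncard_union_eq h2 hfin (hfin.image _)
  rw [← h1, Set.ncard_image_of_injective _ (starRingEnd ℂ).injective, hg] at h3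
  rw [Nat.card_coe_set_eq]
  omega

theorem Orbit.finrank_V {g : ℕ} (hg : R.ncard = 2 * g) : finrank ℚ (V R) = g := by
  have hfin : {x : ℂ | x ∈ R ∧ 0 < x.im}.Finite := h.fin.subset fun x hx => hx.1
  have _ : Fintype {x : ℂ | x ∈ R ∧ 0 < x.im} := hfin.fintype
  rw [(LinearEquiv.ofBijective (half R) h.half_bij).finrank_eq, finrank_fintype_fun_eq_card,
    ← Nat.card_eq_fintype_card, h.card_half hg]

/-- sums over the orbit are invariant -/
theorem Orbit.sum_comp {B : Type*} [AddCommMonoid B] (σ : ℂ ≃+* ℂ) (F : ℂ → B) :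
    ∑ x ∈ h.fin.toFinset, F (σ x) = ∑ x ∈ h.fin.toFinset, F x := by
  refine Finset.sum_nbij' (fun x => σ x) (fun x => σ.symm x) ?_ ?_ ?_ ?_ ?_
  · intro x hx
    exact h.fin.mem_toFinset.2 (h.stable σ x (h.fin.mem_toFinset.1 hx))
  · intro x hx
    exact h.fin.mem_toFinset.2 (h.stable σ.symm x (h.fin.mem_toFinset.1 hx))
  · intro x _; exact σ.symm_apply_apply x
  · intro x _; exact σ.apply_symm_apply x
  · intro x _; rfl

/-- **A semi-invariant odd function gives an imaginary quadratic subfield.** -/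
theorem Orbit.imag (f : ℂ → ℚ) (hodd : ∀ x ∈ R, f (conj x) = - f x)
    (hsemi : ∀ σ : ℂ ≃+* ℂ, ∃ c : ℚ, ∀ x ∈ R, f (σ x) = c * f x) {x₀ : ℂ} (hx₀ : x₀ ∈ R)
    (hf : f x₀ ≠ 0) :
    ∃ z ∈ IntermediateField.adjoin ℚ {x₀}, ∃ d : ℚ, d < 0 ∧ z ^ 2 = d := by
  have hsq : ∀ σ : ℂ ≃+* ℂ, ∃ c : ℚ, c * c = 1 ∧ ∀ x ∈ R, f (σ x) = c * f x := by
    intro σ
    obtain ⟨c, hc⟩ := hsemi σ
    refine ⟨c, ?_, hc⟩
    have h1 := h.sum_comp σ (fun x => f x * f x)
    have h2 : ∑ x ∈ h.fin.toFinset, f (σ x) * f (σ x) =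
        (c * c) * ∑ x ∈ h.fin.toFinset, f x * f x := by
      rw [Finset.mul_sum]
      refine Finset.sum_congr rfl fun x hx => ?_
      rw [hc x (h.fin.mem_toFinset.1 hx)]
      ring
    rw [h2] at h1
    have h3 : 0 < ∑ x ∈ h.fin.toFinset, f x * f x := by
      refine Finset.sum_pos' (fun x _ => mul_self_nonneg _)
        ⟨x₀, h.fin.mem_toFinset.2 hx₀, mul_self_pos.2 hf⟩
    have h4 : (c * c - 1) * ∑ x ∈ h.fin.toFinset, f x * f x = 0 := by linarith
    rcases mul_eq_zero.1 h4 with h5 | h5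
    · linarith
    · exact absurd h5 h3.ne'
  set θ : ℕ → ℂ := fun j => ∑ x ∈ h.fin.toFinset, (f x : ℂ) * x ^ j with hθ
  have hθσ : ∀ (σ : ℂ ≃+* ℂ) (c : ℚ), c * c = 1 → (∀ x ∈ R, f (σ x) = c * f x) →
      ∀ j, σ (θ j) = (c : ℂ) * θ j := by
    intro σ c hcc hc j
    have h1 : σ (θ j) = ∑ x ∈ h.fin.toFinset, (c : ℂ) * ((f (σ x) : ℂ) * (σ x) ^ j) := by
      rw [hθ]
      simp only
      rw [map_sum]
      refine Finset.sum_congr rfl fun x hx => ?_
      rw [map_mul, map_ratCast, map_pow, hc x (h.fin.mem_toFinset.1 hx)]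
      push_cast
      have h2 : (c : ℂ) * c = 1 := by exact_mod_cast hcc
      calc (f x : ℂ) * σ x ^ j = ((c : ℂ) * c) * ((f x : ℂ) * σ x ^ j) := by rw [h2, one_mul]
        _ = _ := by ring
    rw [h1, h.sum_comp σ (fun y => (c : ℂ) * ((f y : ℂ) * y ^ j)), hθ]
    simp only
    rw [Finset.mul_sum]
  -- one of the sums is not zero
  obtain ⟨j, hj⟩ : ∃ j, θ j ≠ 0 := by
    by_contra hcon
    push Not at hcon
    have h1 : ∀ p : ℂ[X], ∑ x ∈ h.fin.toFinset, (f x : ℂ) * p.eval x = 0 := by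
      intro p
      have h2 : ∑ x ∈ h.fin.toFinset, (f x : ℂ) * p.eval x =
          ∑ i ∈ Finset.range (p.natDegree + 1), p.coeff i * θ i := by
        simp only [hθ, Polynomial.eval_eq_sum_range, Finset.mul_sum]
        rw [Finset.sum_comm]
        refine Finset.sum_congr rfl fun i _ => Finset.sum_congr rfl fun x _ => ?_
        ring
      rw [h2]
      exact Finset.sum_eq_zero fun i _ => by rw [hcon, mul_zero]
    have h2 := h1 (∏ y ∈ h.fin.toFinset.erase x₀, (X - C y))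
    rw [Finset.sum_eq_single x₀] at h2
    · rcases mul_eq_zero.1 h2 with h3 | h3
      · exact hf (by exact_mod_cast h3)
      · rw [Polynomial.eval_prod, Finset.prod_eq_zero_iff] at h3
        obtain ⟨y, hy, h4⟩ := h3
        rw [eval_sub, eval_X, eval_C, sub_eq_zero] at h4
        exact (Finset.ne_of_mem_erase hy) h4.symm
    · intro y hy hne
      rw [Polynomial.eval_prod, Finset.prod_eq_zero (i := y), mul_zero]
      · exact Finset.mem_erase.2 ⟨hne, hy⟩
      · simp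
    · intro h3
      exact absurd (h.fin.mem_toFinset.2 hx₀) h3
  -- the square is rational
  have hrat : ∃ d : ℚ, (θ j) ^ 2 = d := by
    by_contra hcon
    push Not at hcon
    have hF : (θ j) ^ 2 ∉ (algebraMap ℚ ℂ).fieldRange := by
      rintro ⟨d, hd⟩
      exact hcon d hd.symm
    obtain ⟨σ, -, hσ⟩ := Pool.Agent.TH119.MX.exists_move hF
    obtain ⟨c, hcc, hc⟩ := hsq σ
    apply hσ
    rw [map_pow, hθσ σ c hcc hc, mul_pow]
    have h2 : (c : ℂ) ^ 2 = 1 := by
      rw [pow_two]; exact_mod_cast hcc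
    rw [h2, one_mul]
  obtain ⟨d, hd⟩ := hrat
  refine ⟨θ j, ?_, d, ?_, hd⟩
  · by_contra hcon
    obtain ⟨τ, hτ, hτ2⟩ := Pool.Agent.TH119.MX.exists_move
      (F := (IntermediateField.adjoin ℚ {x₀}).toSubfield) hcon
    obtain ⟨c, hcc, hc⟩ := hsq τ
    have h1 : τ x₀ = x₀ := hτ x₀ (IntermediateField.mem_adjoin_simple_self ℚ x₀)
    have h2 := hc x₀ hx₀
    rw [h1] at h2
    have h3 : c = 1 := by
      have h4 : (c - 1) * f x₀ = 0 := by linarith
      rcases mul_eq_zero.1 h4 with h5 | h5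
      · linarith
      · exact absurd h5 hf
    apply hτ2
    rw [hθσ τ c hcc hc, h3]
    push_cast
    rw [one_mul]
  · -- the conjugate
    have h1 : conj (θ j) = - θ j := by
      have h2 : ((starRingAut : ℂ ≃+* ℂ) (θ j)) = ((-1 : ℚ) : ℂ) * θ j := by
        refine hθσ _ (-1) (by norm_num) (fun x hx => ?_) j
        have h3 : (starRingAut : ℂ ≃+* ℂ) x = conj x := rfl
        rw [h3, hodd x hx]
        ring
      have h3 : (starRingAut : ℂ ≃+* ℂ) (θ j) = conj (θ j) := rfl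
      rw [h3] at h2
      rw [h2]
      push_cast
      ring
    have hre : (θ j).re = 0 := by
      have h2 := congrArg Complex.re h1
      rw [Complex.conj_re, Complex.neg_re] at h2
      linarith
    have him : (θ j).im ≠ 0 := by
      intro h2
      exact hj (Complex.ext hre h2)
    have h2 := congrArg Complex.re hd
    rw [pow_two, Complex.mul_re, hre, Complex.ratCast_re] at h2
    have h3 : (d : ℝ) < 0 := by
      rw [← h2]
      have h4 : 0 < (θ j).im * (θ j).im := mul_self_pos.2 him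
      linarith
    exact_mod_cast h3

end orbit

end Pool.Agent.K7.H59.PD
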