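import Mathlib
import Pool.Agent.K7.H59.PD.Orb

/-!
# Irreducibility of the odd functions on an orbit of prime half length
-/

set_option autoImplicit false

namespace Pool.Agent.K7.H59.PD

open Polynomial Module ComplexConjugate

/-- no imaginary quadratic field inside the fields of the orbit -/
def NoImag (R : Set ℂ) : Prop :=
  ∀ x ∈ R, ∀ z ∈ IntermediateField.adjoin ℚ {x}, ∀ d : ℚ, d < 0 → z ^ 2 ≠ d

/-- an automorphism which exchanges one complex conjugate pair and fixes the other pairs -/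
def Flip (R : Set ℂ) : Prop :=
  ∃ x ∈ R, ∃ σ : ℂ ≃+* ℂ, σ x = conj x ∧ ∀ y ∈ R, y ≠ x → y ≠ conj x → σ y = y

/-- the three cases -/
def Prim (R : Set ℂ) (g : ℕ) : Prop := g = 1 ∨ (g.Prime ∧ NoImag R) ∨ Flip R

theorem e_conj (x : ℂ) : e (conj x) = - e x := by
  simp [e]

section orbit

variable {q : ℕ} {R : Set ℂ} (h : Orbit q R)

include h

theorem Orbit.not_semi (hN : NoImag R) {a : ℂ →₀ ℚ} (haV : a ∈ V R) (ha : a ≠ 0)
    (hs : ∀ σ : ℂ ≃+* ℂ, ∃ c : ℚ, ∀ x ∈ R, a (σ x) = c * a x) : False := by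
  obtain ⟨x, hx⟩ : ∃ x, a x ≠ 0 := by
    by_contra hcon
    push Not at hcon
    exact ha (Finsupp.ext hcon)
  have hxR : x ∈ R := by
    by_contra hcon
    exact hx (haV.1 x hcon)
  obtain ⟨z, hz, d, hd, hzd⟩ := h.imag (fun x => a x) (fun x _ => haV.2 x) hs hxR hx
  exact hN x hxR z hz d hd hzd

/-- no stable submodule of codimension one -/
theorem Orbit.not_codim (hN : NoImag R) {T : Submodule ℚ (ℂ →₀ ℚ)} (hT : Stable T)
    {a₀ : ℂ →₀ ℚ} (ha₀ : a₀ ∈ V R) (ha₀T : a₀ ∉ T)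
    (hsup : V R ≤ T ⊔ Submodule.span ℚ {a₀}) : False := by
  obtain ⟨l, hl, hlT⟩ := Submodule.exists_dual_map_eq_bot_of_notMem ha₀T inferInstance
  have hlT' : ∀ t ∈ T, l t = 0 := fun t ht => by
    have h1 : l t ∈ T.map l := Submodule.mem_map_of_mem ht
    rw [hlT] at h1
    exact (Submodule.mem_bot ℚ).1 h1
  have hdec : ∀ v ∈ V R, ∃ c : ℚ, ∃ t ∈ T, v = t + c • a₀ := by
    intro v hv
    obtain ⟨t, ht, w, hw, htw⟩ := Submodule.mem_sup.1 (hsup hv)
    obtain ⟨c, rfl⟩ := Submodule.mem_span_singleton.1 hw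
    exact ⟨c, t, ht, htw.symm⟩
  have hsemi : ∀ σ : ℂ ≃+* ℂ, ∃ c : ℚ, ∀ x ∈ R, l (e (σ x)) = c * l (e x) := by
    intro σ
    refine ⟨l (act σ a₀) / l a₀, fun x hx => ?_⟩
    obtain ⟨c, t, ht, hv⟩ := hdec _ (h.e_mem hx)
    rw [← h.act_e σ hx, hv, map_add, map_smul, map_add, map_smul, hlT' _ (hT σ t ht), map_add,
      map_smul, hlT' t ht, zero_add, zero_add, smul_eq_mul, smul_eq_mul]
    field_simp
  obtain ⟨x, hx, hlx⟩ : ∃ x ∈ R, l (e x) ≠ 0 := by
    by_contra hcon
    push Not at hcon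
    apply hl
    rw [h.eq_sum ha₀, map_smul, map_sum]
    rw [Finset.sum_eq_zero, smul_zero]
    intro x hx
    rw [map_smul, hcon x (h.fin.mem_toFinset.1 hx), smul_zero]
  obtain ⟨z, hz, d, hd, hzd⟩ := h.imag (fun x => l (e x)) (fun x _ => by rw [e_conj, map_neg])
    hsemi hx hlx
  exact hN x hx z hz d hd hzd

/-- the case of a flip -/
theorem Orbit.V_le_flip (hF : Flip R) {T : Submodule ℚ (ℂ →₀ ℚ)} (hT : Stable T)
    {a : ℂ →₀ ℚ} (haT : a ∈ T) (haV : a ∈ V R) (ha : a ≠ 0) : V R ≤ T := by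
  obtain ⟨x, hx, σ, hσ, hσ2⟩ := hF
  obtain ⟨y, hy⟩ : ∃ x, a x ≠ 0 := by
    by_contra hcon
    push Not at hcon
    exact ha (Finsupp.ext hcon)
  have hyR : y ∈ R := by
    by_contra hcon
    exact hy (haV.1 y hcon)
  obtain ⟨γ, hγ⟩ := h.trans y hyR x hx
  obtain ⟨b, hbx, hbT, hbV⟩ : ∃ b : ℂ →₀ ℚ, b x ≠ 0 ∧ b ∈ T ∧ b ∈ V R := by
    refine ⟨act γ a, ?_, hT γ a haT, h.act_mem γ haV⟩
    rw [← hγ, act_apply]
    exact hy
  have hσc : σ (conj x) = x := by
    rw [h.comm σ hx, hσ, Complex.conj_conj]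
  have hsx : σ.symm x = conj x := by
    rw [σ.symm_apply_eq, hσc]
  have hsc : σ.symm (conj x) = x := by
    rw [σ.symm_apply_eq, hσ]
  have hkey : b - act σ b = (2 * b x) • e x := by
    ext y
    rw [Finsupp.sub_apply, act_apply' σ b y, Finsupp.smul_apply, e_apply, smul_eq_mul]
    by_cases h1 : x = y
    · subst h1
      rw [hsx, hbV.2, if_pos rfl, if_neg (h.nonreal x hx)]
      ring
    · by_cases h2 : conj x = y
      · subst h2
        rw [hsc, hbV.2, if_neg h1, if_pos rfl]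
        ring
      · rw [if_neg h1, if_neg h2]
        by_cases h3 : y ∈ R
        · have h4 := hσ2 y h3 (fun h => h1 h.symm) (fun h => h2 h.symm)
          have h5 : σ.symm y = y := by rw [σ.symm_apply_eq, h4]
          rw [h5]
          ring
        · rw [hbV.1 y h3, hbV.1 _ (fun h4 => h3 ((h.mem_iff σ.symm y).1 h4))]
          ring
  refine h.V_le_one hT hx ?_
  have h2 : (2 * b x) ≠ 0 := mul_ne_zero two_ne_zero hbx
  have h3 : e x = (2 * b x)⁻¹ • (b - act σ b) := by
    rw [hkey, smul_smul, inv_mul_cancel₀ h2, one_smul]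
  rw [h3]
  exact T.smul_mem _ (T.sub_mem hbT (hT σ b hbT))

/-- the finite group of permutations of the orbit induced by automorphisms -/
def Orbit.grp (_h : Orbit q R) : Subgroup (Equiv.Perm R) where
  carrier := {p | ∃ σ : ℂ ≃+* ℂ, ∀ x : R, ((p x : R) : ℂ) = σ x}
  mul_mem' := by
    rintro p p' ⟨σ, hσ⟩ ⟨τ, hτ⟩
    refine ⟨τ.trans σ, fun x => ?_⟩
    rw [Equiv.Perm.mul_apply, hσ, hτ]
    rfl
  one_mem' := ⟨RingEquiv.refl ℂ, fun x => rfl⟩
  inv_mem' := by
    rintro p ⟨σ, hσ⟩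
    refine ⟨σ.symm, fun x => ?_⟩
    rw [eq_comm, σ.symm_apply_eq, ← hσ]
    simp

/-- **Cauchy's theorem for the group of the orbit.** -/
theorem Orbit.exists_prime_order {g : ℕ} (hg : R.ncard = 2 * g) (hp : g.Prime) :
    ∃ σ : ℂ ≃+* ℂ, (∀ x ∈ R, σ^[g] x = x) ∧ ∃ x ∈ R, σ x ≠ x := by
  have _ : Finite R := h.fin
  have _ : Fact g.Prime := ⟨hp⟩
  have _ : Nonempty R := h.ne.to_subtype
  obtain ⟨x₀⟩ : Nonempty R := inferInstance
  have htr : MulAction.IsPretransitive h.grp R := by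
    refine ⟨fun x y => ?_⟩
    obtain ⟨σ, hσ⟩ := h.trans x x.2 y y.2
    refine ⟨⟨{ toFun := fun z => ⟨σ z, h.stable σ z z.2⟩
               invFun := fun z => ⟨σ.symm z, h.stable σ.symm z z.2⟩
               left_inv := fun z => Subtype.ext (σ.symm_apply_apply _)
               right_inv := fun z => Subtype.ext (σ.apply_symm_apply _) }, σ, fun z => rfl⟩, ?_⟩
    apply Subtype.ext
    exact hσ
  have h1 := MulAction.index_stabilizer_of_transitive h.grp x₀
  have h2 : g ∣ Nat.card h.grp := by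
    have h3 := (MulAction.stabilizer h.grp x₀).index_dvd_card
    rw [h1, Nat.card_coe_set_eq, hg] at h3
    exact (Dvd.intro_left 2 rfl).trans h3
  obtain ⟨p', hp1⟩ := exists_prime_orderOf_dvd_card' (G := h.grp) g h2
  rw [← Subgroup.orderOf_coe] at hp1
  obtain ⟨p, σ, hσ, hp1⟩ : ∃ p : Equiv.Perm R, ∃ σ : ℂ ≃+* ℂ, (∀ x : R, ((p x : R) : ℂ) = σ x) ∧
      orderOf p = g := by
    obtain ⟨σ, hσ⟩ := p'.2
    exact ⟨p', σ, hσ, hp1⟩
  have hpow : ∀ (n : ℕ) (x : R), (((p ^ n) x : R) : ℂ) = σ^[n] x := by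
    intro n
    induction n with
    | zero => intro x; rfl
    | succ n ih =>
      intro x
      rw [pow_succ, Equiv.Perm.mul_apply, ih, hσ, Function.iterate_succ_apply]
  refine ⟨σ, fun x hx => ?_, ?_⟩
  · have h3 := hpow g ⟨x, hx⟩
    rw [← hp1, pow_orderOf_eq_one] at h3
    rw [← hp1]
    exact h3.symm
  · by_contra hcon
    push Not at hcon
    have h3 : p = 1 := by
      ext x
      rw [hσ, hcon x x.2]
      rfl
    rw [h3, orderOf_one] at hp1
    exact hp.one_lt.ne hp1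

theorem Orbit.iterate_mem (σ : ℂ ≃+* ℂ) {x : ℂ} (hx : x ∈ R) (n : ℕ) : σ^[n] x ∈ R := by
  induction n with
  | zero => exact hx
  | succ n ih =>
    rw [Function.iterate_succ_apply']
    exact h.stable σ _ ih

theorem Orbit.iterate_comm (σ : ℂ ≃+* ℂ) {x : ℂ} (hx : x ∈ R) (n : ℕ) :
    σ^[n] (conj x) = conj (σ^[n] x) := by
  induction n with
  | zero => rfl
  | succ n ih =>
    rw [Function.iterate_succ_apply', Function.iterate_succ_apply', ih,
      h.comm σ (h.iterate_mem σ hx n)]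

/-- an element of prime order either acts trivially or forces a large dimension -/
theorem Orbit.dim_or_fixed {g : ℕ} (hp : g.Prime) {T : Submodule ℚ (ℂ →₀ ℚ)} (hT : Stable T)
    (hTV : T ≤ V R) (σ : ℂ ≃+* ℂ) (hσ : ∀ x ∈ R, σ^[g] x = x) :
    (g ≤ finrank ℚ T + 1) ∨ ∀ t ∈ T, act σ t = t := by
  by_cases hfix : ∀ t ∈ T, act σ t = t
  · exact Or.inr hfix
  left
  push Not at hfix
  obtain ⟨t, htT, ht⟩ := hfix
  have _ : Fact g.Prime := ⟨hp⟩
  have _ := h.finiteDimensional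
  set S : Module.End ℚ (ℂ →₀ ℚ) := act σ with hS
  have hSpow : ∀ (n : ℕ) (x : ℂ), ((S ^ n) t) (σ^[n] x) = t x := by
    intro n
    induction n with
    | zero => intro x; rfl
    | succ n ih =>
      intro x
      rw [pow_succ', Module.End.mul_apply, Function.iterate_succ_apply', hS]
      rw [act_apply]
      exact ih x
  have hmem : ∀ (n : ℕ), ∀ u ∈ T, (S ^ n) u ∈ T := by
    intro n
    induction n with
    | zero => intro u hu; exact hu
    | succ n ih =>
      intro u hu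
      rw [pow_succ', Module.End.mul_apply]
      exact hT σ _ (ih u hu)
  have hSg : (S ^ g) t = t := by
    ext x
    by_cases hx : x ∈ R
    · have h1 := hSpow g x
      rwa [hσ x hx] at h1
    · rw [(hTV (hmem g t htT)).1 x hx, (hTV htT).1 x hx]
  have haev : ∀ (p : ℚ[X]), ∀ u ∈ T, (aeval S p) u ∈ T := by
    intro p u hu
    rw [Polynomial.aeval_eq_sum_range, LinearMap.sum_apply]
    refine T.sum_mem fun i _ => ?_
    rw [LinearMap.smul_apply]
    exact T.smul_mem _ (hmem i u hu)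
  set t' := (aeval S (X - 1 : ℚ[X])) t with ht'
  have ht'T : t' ∈ T := haev _ t htT
  have ht'0 : t' ≠ 0 := by
    intro h1
    rw [ht', map_sub, aeval_X, map_one, LinearMap.sub_apply, Module.End.one_apply,
      sub_eq_zero] at h1
    exact ht h1
  have hcyc : (aeval S (cyclotomic g ℚ)) t' = 0 := by
    rw [ht', ← Module.End.mul_apply, ← map_mul, cyclotomic_prime_mul_X_sub_one, map_sub,
      map_pow, aeval_X, map_one, LinearMap.sub_apply, hSg, Module.End.one_apply, sub_self]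
  have hirr : Irreducible (cyclotomic g ℚ) := cyclotomic.irreducible_rat hp.pos
  let L : degreeLT ℚ (g - 1) →ₗ[ℚ] (ℂ →₀ ℚ) :=
    (LinearMap.applyₗ t').comp ((aeval S).toLinearMap.comp (degreeLT ℚ (g - 1)).subtype)
  have hL : ∀ p, L p = (aeval S (p : ℚ[X])) t' := fun p => rfl
  have hinj : Function.Injective L := by
    rw [← LinearMap.ker_eq_bot, LinearMap.ker_eq_bot']
    intro p hp0
    by_contra hne
    have hpne : (p : ℚ[X]) ≠ 0 := fun h1 => hne (Subtype.ext h1)
    have hnd : ¬ cyclotomic g ℚ ∣ (p : ℚ[X]) := by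
      intro hdvd
      have h1 := Polynomial.degree_le_of_dvd hdvd hpne
      have h2 := Polynomial.mem_degreeLT.1 p.2
      rw [Polynomial.degree_cyclotomic, Nat.totient_prime hp] at h1
      exact absurd (lt_of_le_of_lt h1 h2) (lt_irrefl _)
    obtain ⟨u, v, huv⟩ := (hirr.coprime_iff_not_dvd).2 hnd
    have h1 : (aeval S (u * cyclotomic g ℚ + v * (p : ℚ[X]))) t' = t' := by
      rw [huv, map_one, Module.End.one_apply]
    rw [hL] at hp0
    rw [map_add, map_mul, map_mul, LinearMap.add_apply, Module.End.mul_apply,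
      Module.End.mul_apply, hcyc, hp0, map_zero, map_zero, add_zero] at h1
    exact ht'0 h1.symm
  have hrange : LinearMap.range L ≤ T := by
    rintro _ ⟨p, rfl⟩
    exact haev _ t' ht'T
  have hTfin : FiniteDimensional ℚ T := Submodule.finiteDimensional_of_le hTV
  have h1 : finrank ℚ (LinearMap.range L) = g - 1 := by
    rw [LinearMap.finrank_range_of_inj hinj, (Polynomial.degreeLTEquiv ℚ (g - 1)).finrank_eq,
      finrank_fin_fun]
  have h2 := Submodule.finrank_mono hrange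
  have h3 := hp.one_lt
  omega

theorem Orbit.semi_of_fixed {g : ℕ} (hg : R.ncard = 2 * g) (hp : g.Prime) (hg2 : g ≠ 2)
    {T : Submodule ℚ (ℂ →₀ ℚ)} (hT : Stable T) (hTV : T ≤ V R) (σ : ℂ ≃+* ℂ)
    (hσ : ∀ x ∈ R, σ^[g] x = x) {x₁ : ℂ} (hx₁ : x₁ ∈ R) (hσx : σ x₁ ≠ x₁)
    (hfix : ∀ t ∈ T, act σ t = t) {t : ℂ →₀ ℚ} (ht : t ∈ T) (ht0 : t ≠ 0) :
    ∀ τ : ℂ ≃+* ℂ, ∃ c : ℚ, ∀ x ∈ R, t (τ x) = c * t x := by
  have _ : Fact g.Prime := ⟨hp⟩
  have hinv : ∀ u ∈ T, ∀ (n : ℕ) (x : ℂ), u (σ^[n] x) = u x := by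
    intro u hu n
    induction n with
    | zero => intro x; rfl
    | succ n ih =>
      intro x
      rw [Function.iterate_succ_apply']
      have h1 : act σ u (σ (σ^[n] x)) = u (σ^[n] x) := act_apply σ u _
      rw [hfix u hu] at h1
      rw [h1, ih]
  have hmin : Function.minimalPeriod σ x₁ = g :=
    Function.minimalPeriod_eq_prime (hσ x₁ hx₁) hσx
  have hne : ∀ n : ℕ, σ^[n] x₁ ≠ conj x₁ := by
    intro n hn
    have h1 : σ^[n + n] x₁ = x₁ := by
      rw [Function.iterate_add_apply, hn, h.iterate_comm σ hx₁, hn, Complex.conj_conj]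
    have h2 : g ∣ n + n := by
      rw [← hmin]
      exact Function.IsPeriodicPt.minimalPeriod_dvd h1
    have h3 : g ∣ n := by
      rw [← two_mul] at h2
      rcases (Nat.Prime.dvd_mul hp).1 h2 with h3 | h3
      · exact absurd ((Nat.prime_dvd_prime_iff_eq hp Nat.prime_two).1 h3) hg2
      · exact h3
    have h4 : σ^[n] x₁ = x₁ := by
      rw [← hmin] at h3
      exact (Function.isPeriodicPt_iff_minimalPeriod_dvd.2 h3)
    rw [h4] at hn
    exact h.nonreal x₁ hx₁ hn.symm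
  have hcov : ∀ x ∈ R, ∃ n : ℕ, x = σ^[n] x₁ ∨ x = conj (σ^[n] x₁) := by
    classical
    let O : Finset ℂ := (Finset.range g).image (fun n => σ^[n] x₁)
    let O' : Finset ℂ := O.image (fun x => conj x)
    have hO : O.card = g := by
      rw [Finset.card_image_of_injOn, Finset.card_range]
      have h1 := Function.iterate_injOn_Iio_minimalPeriod (f := σ) (x := x₁)
      rw [hmin] at h1
      intro i hi j hj hij
      exact h1 (by simpa using hi) (by simpa using hj) hij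
    have hO' : O'.card = g := by
      rw [Finset.card_image_of_injective _ (starRingEnd ℂ).injective, hO]
    have hdisj : Disjoint O O' := by
      rw [Finset.disjoint_left]
      intro x hx hx'
      obtain ⟨i, hi, rfl⟩ := Finset.mem_image.1 hx
      obtain ⟨y, hy, hyx⟩ := Finset.mem_image.1 hx'
      obtain ⟨j, hj, rfl⟩ := Finset.mem_image.1 hy
      have hjg : j < g := Finset.mem_range.1 hj
      have h1 : σ^[(g - j) + i] x₁ = conj x₁ := by
        rw [Function.iterate_add_apply]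
        have h2 : σ^[i] x₁ = conj (σ^[j] x₁) := hyx.symm
        rw [h2, h.iterate_comm σ (h.iterate_mem σ hx₁ j), ← Function.iterate_add_apply,
          Nat.sub_add_cancel hjg.le, hσ x₁ hx₁]
      exact hne _ h1
    have hsub : O ∪ O' ⊆ h.fin.toFinset := by
      intro x hx
      rw [h.fin.mem_toFinset]
      rcases Finset.mem_union.1 hx with hx | hx
      · obtain ⟨i, hi, rfl⟩ := Finset.mem_image.1 hx
        exact h.iterate_mem σ hx₁ i
      · obtain ⟨y, hy, rfl⟩ := Finset.mem_image.1 hx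
        obtain ⟨j, hj, rfl⟩ := Finset.mem_image.1 hy
        exact h.conj_mem (h.iterate_mem σ hx₁ j)
    have heq : O ∪ O' = h.fin.toFinset := by
      refine Finset.eq_of_subset_of_card_le hsub ?_
      rw [Finset.card_union_of_disjoint hdisj, hO, hO', ← Set.ncard_eq_toFinset_card R h.fin, hg]
      omega
    intro x hx
    rw [← h.fin.mem_toFinset, ← heq] at hx
    rcases Finset.mem_union.1 hx with hx | hx
    · obtain ⟨i, hi, hix⟩ := Finset.mem_image.1 hx
      exact ⟨i, Or.inl hix.symm⟩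
    · obtain ⟨y, hy, hyx⟩ := Finset.mem_image.1 hx
      obtain ⟨j, hj, rfl⟩ := Finset.mem_image.1 hy
      exact ⟨j, Or.inr hyx.symm⟩
  have hval : ∀ x ∈ R, ∃ s : ℚ, ∀ u ∈ T, u x = s * u x₁ := by
    intro x hx
    obtain ⟨n, hn | hn⟩ := hcov x hx
    · refine ⟨1, fun u hu => ?_⟩
      rw [hn, hinv u hu, one_mul]
    · refine ⟨-1, fun u hu => ?_⟩
      rw [hn, (hTV hu).2, hinv u hu]
      ring
  have htx : t x₁ ≠ 0 := by
    intro h1
    apply ht0
    ext x
    by_cases hx : x ∈ R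
    · obtain ⟨s, hs⟩ := hval x hx
      rw [hs t ht, h1, mul_zero]
      rfl
    · exact (hTV ht).1 x hx
  intro τ
  refine ⟨act τ.symm t x₁ / t x₁, fun x hx => ?_⟩
  obtain ⟨s, hs⟩ := hval x hx
  have h1 : t (τ x) = act τ.symm t x := by
    rw [act_apply']
    rfl
  rw [h1, hs _ (hT τ.symm t ht), hs t ht]
  field_simp

/-- **The odd functions on an orbit of prime half length form an irreducible
representation, unless the fields contain an imaginary quadratic field.** -/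
theorem Orbit.V_le_prime {g : ℕ} (hg : R.ncard = 2 * g) (hp : g.Prime) (hN : NoImag R)
    {T : Submodule ℚ (ℂ →₀ ℚ)} (hT : Stable T) {a : ℂ →₀ ℚ} (haT : a ∈ T) (haV : a ∈ V R)
    (ha : a ≠ 0) : V R ≤ T := by
  by_contra hcon
  obtain ⟨a₀, ha₀, ha₀T⟩ := Set.not_subset.1 hcon
  have _ := h.finiteDimensional
  set T' := T ⊓ V R with hT'
  have hT's : Stable T' := fun σ b hb => ⟨hT σ b hb.1, h.act_mem σ hb.2⟩
  have hT'V : T' ≤ V R := inf_le_right
  have ha₀T' : a₀ ∉ T' := fun h1 => ha₀T h1.1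
  have _ : FiniteDimensional ℚ T' := Submodule.finiteDimensional_of_le hT'V
  have haT' : a ∈ T' := ⟨haT, haV⟩
  have hpos : 1 ≤ finrank ℚ T' := by
    have _ : Nontrivial T' := ⟨⟨⟨a, haT'⟩, 0, fun h1 => ha (congrArg Subtype.val h1)⟩⟩
    exact finrank_pos
  have hkey : ¬ (g ≤ finrank ℚ T' + 1) := by
    intro hle
    refine h.not_codim hN hT's ha₀ ha₀T' ?_
    have hle2 : T' ⊔ Submodule.span ℚ {a₀} ≤ V R := by
      refine sup_le hT'V ?_
      rw [Submodule.span_singleton_le_iff_mem]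
      exact ha₀
    have hlt : T' < T' ⊔ Submodule.span ℚ {a₀} := by
      refine lt_of_le_of_ne le_sup_left fun h1 => ha₀T' ?_
      rw [h1]
      exact Submodule.mem_sup_right (Submodule.mem_span_singleton_self a₀)
    have _ : FiniteDimensional ℚ (T' ⊔ Submodule.span ℚ {a₀} : Submodule ℚ (ℂ →₀ ℚ)) :=
      Submodule.finiteDimensional_of_le hle2
    have h1 := Submodule.finrank_lt_finrank_of_lt hlt
    refine (Submodule.eq_of_le_of_finrank_le hle2 ?_).ge
    rw [h.finrank_V hg]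
    omega
  rcases eq_or_ne g 2 with hg2 | hg2
  · exact hkey (by omega)
  · obtain ⟨σ, hσ, x₁, hx₁, hσx⟩ := h.exists_prime_order hg hp
    rcases h.dim_or_fixed hp hT's hT'V σ hσ with h1 | h1
    · exact hkey h1
    · exact h.not_semi hN haV ha (h.semi_of_fixed hg hp hg2 hT's hT'V σ hσ hx₁ hσx h1 haT' ha)

theorem Orbit.V_le_of_ne {g : ℕ} (hg : R.ncard = 2 * g) (hP : Prim R g)
    {T : Submodule ℚ (ℂ →₀ ℚ)} (hT : Stable T) {a : ℂ →₀ ℚ} (haT : a ∈ T) (haV : a ∈ V R)
    (ha : a ≠ 0) : V R ≤ T := by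
  rcases hP with h1 | ⟨hp, hN⟩ | hF
  · have _ := h.finiteDimensional
    have h2 : finrank ℚ (V R) = 1 := by rw [h.finrank_V hg, h1]
    intro b hb
    obtain ⟨c, hc⟩ := (finrank_eq_one_iff_of_nonzero' (⟨a, haV⟩ : V R)
      (fun h3 => ha (congrArg Subtype.val h3))).1 h2 ⟨b, hb⟩
    have h3 : c • a = b := congrArg Subtype.val hc
    rw [← h3]
    exact T.smul_mem c haT
  · exact h.V_le_prime hg hp hN hT haT haV ha
  · exact h.V_le_flip hF hT haT haV ha

end orbit

end Pool.Agent.K7.H59.PD
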