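import Mathlib
import Pool.Agent.K7.H59.PD.Irr

/-!
# Several orbits
-/

set_option autoImplicit false

namespace Pool.Agent.K7.H59.PD

open Polynomial Module ComplexConjugate

open Classical in
/-- restriction of a function to a set -/
noncomputable def res (R : Set ℂ) (a : ℂ →₀ ℚ) : ℂ →₀ ℚ := a.filter (· ∈ R)

theorem res_of_mem {R : Set ℂ} (a : ℂ →₀ ℚ) {x : ℂ} (hx : x ∈ R) : res R a x = a x := by
  classical
  exact Finsupp.filter_apply_pos _ a hx

theorem res_of_notMem {R : Set ℂ} (a : ℂ →₀ ℚ) {x : ℂ} (hx : x ∉ R) : res R a x = 0 := by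
  classical
  exact Finsupp.filter_apply_neg _ a hx

theorem res_sub (R : Set ℂ) (a b : ℂ →₀ ℚ) : res R (a - b) = res R a - res R b := by
  ext x
  by_cases hx : x ∈ R
  · rw [res_of_mem _ hx, Finsupp.sub_apply, Finsupp.sub_apply, res_of_mem _ hx, res_of_mem _ hx]
  · rw [res_of_notMem _ hx, Finsupp.sub_apply, res_of_notMem _ hx, res_of_notMem _ hx, sub_zero]

theorem Orbit.res_act {q : ℕ} {R : Set ℂ} (h : Orbit q R) (σ : ℂ ≃+* ℂ) (a : ℂ →₀ ℚ) :
    res R (act σ a) = act σ (res R a) := by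
  ext x
  by_cases hx : x ∈ R
  · rw [res_of_mem _ hx, act_apply', act_apply', res_of_mem _ ((h.mem_iff σ.symm x).2 hx)]
  · rw [res_of_notMem _ hx, act_apply', res_of_notMem]
    exact fun h1 => hx ((h.mem_iff σ.symm x).1 h1)

theorem Orbit.res_mem {q : ℕ} {R : Set ℂ} (h : Orbit q R) {a : ℂ →₀ ℚ}
    (ha : ∀ x, a (conj x) = - a x) : res R a ∈ V R := by
  refine ⟨fun x hx => res_of_notMem a hx, fun x => ?_⟩
  by_cases hx : x ∈ R
  · rw [res_of_mem _ hx, res_of_mem _ (h.conj_mem hx), ha]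
  · rw [res_of_notMem _ hx, res_of_notMem, neg_zero]
    exact fun h1 => hx ((h.conj_mem_iff x).1 h1)

/-- an automorphism fixing an orbit pointwise does not change the restriction -/
theorem Orbit.res_act_fix {q : ℕ} {R : Set ℂ} (h : Orbit q R) {τ : ℂ ≃+* ℂ}
    (hτ : ∀ x ∈ R, τ x = x) (a : ℂ →₀ ℚ) : res R (act τ a) = res R a := by
  ext x
  by_cases hx : x ∈ R
  · rw [res_of_mem _ hx, res_of_mem _ hx, act_apply']
    congr 1
    rw [τ.symm_apply_eq, hτ x hx]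
  · rw [res_of_notMem _ hx, res_of_notMem _ hx]

section multi

/-- two orbits with different fields are separated by an automorphism -/
theorem exists_sep {A B : Set ℂ}
    (hK : IntermediateField.adjoin ℚ A ≠ IntermediateField.adjoin ℚ B) :
    (∃ τ : ℂ ≃+* ℂ, (∀ x ∈ A, τ x = x) ∧ ∃ y ∈ B, τ y ≠ y) ∨
    (∃ τ : ℂ ≃+* ℂ, (∀ x ∈ B, τ x = x) ∧ ∃ y ∈ A, τ y ≠ y) := by
  have key : ∀ A B : Set ℂ, ¬ (B ⊆ IntermediateField.adjoin ℚ A) →
      ∃ τ : ℂ ≃+* ℂ, (∀ x ∈ A, τ x = x) ∧ ∃ y ∈ B, τ y ≠ y := by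
    intro A B hAB
    obtain ⟨y, hy, hyn⟩ := Set.not_subset.1 hAB
    obtain ⟨τ, hτ, hτ2⟩ := Pool.Agent.TH119.MX.exists_move
      (F := (IntermediateField.adjoin ℚ A).toSubfield) hyn
    exact ⟨τ, fun x hx => hτ x (IntermediateField.subset_adjoin ℚ A hx), y, hy, hτ2⟩
  by_cases h1 : B ⊆ IntermediateField.adjoin ℚ A
  · by_cases h2 : A ⊆ IntermediateField.adjoin ℚ B
    · exact absurd (le_antisymm (IntermediateField.adjoin_le_iff.2 h2)
        (IntermediateField.adjoin_le_iff.2 h1)) hK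
    · exact Or.inr (key B A h2)
  · exact Or.inl (key A B h1)

variable {I : Type*} {q : ℕ} {R : I → Set ℂ} (h : ∀ i, Orbit q (R i))

include h

theorem act_mem_union (σ : ℂ ≃+* ℂ) {a : ℂ →₀ ℚ} (ha : a ∈ V (⋃ i, R i)) :
    act σ a ∈ V (⋃ i, R i) := by
  refine ⟨fun x hx => ?_, fun x => ?_⟩
  · rw [act_apply']
    refine ha.1 _ (fun h1 => hx ?_)
    obtain ⟨i, hi⟩ := Set.mem_iUnion.1 h1
    exact Set.mem_iUnion.2 ⟨i, ((h i).mem_iff σ.symm x).1 hi⟩
  · rw [act_apply', act_apply']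
    by_cases hx : x ∈ ⋃ i, R i
    · obtain ⟨i, hi⟩ := Set.mem_iUnion.1 hx
      rw [(h i).comm σ.symm hi, ha.2]
    · rw [ha.1 _ (fun h1 => hx ?_), ha.1 _ (fun h1 => hx ?_), neg_zero]
      · obtain ⟨i, hi⟩ := Set.mem_iUnion.1 h1
        exact Set.mem_iUnion.2 ⟨i, ((h i).mem_iff σ.symm x).1 hi⟩
      · obtain ⟨i, hi⟩ := Set.mem_iUnion.1 h1
        exact Set.mem_iUnion.2 ⟨i, ((h i).conj_mem_iff x).1 (((h i).mem_iff σ.symm _).1 hi)⟩

/-- one step of the descent -/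
theorem exists_smaller [Finite I] {g : I → ℕ} (hg : ∀ i, (R i).ncard = 2 * g i)
    (hP : ∀ i, Prim (R i) (g i)) {T : Submodule ℚ (ℂ →₀ ℚ)} (hT : Stable T)
    {a : ℂ →₀ ℚ} (haT : a ∈ T) (haU : a ∈ V (⋃ i, R i)) {i j : I}
    (hi : res (R i) a ≠ 0) (hj : res (R j) a ≠ 0) {τ : ℂ ≃+* ℂ} (hτ : ∀ x ∈ R i, τ x = x)
    {y : ℂ} (hy : y ∈ R j) (hτy : τ y ≠ y) :
    ∃ b ∈ T, b ∈ V (⋃ i, R i) ∧ b ≠ 0 ∧
      {k | res (R k) b ≠ 0}.ncard < {k | res (R k) a ≠ 0}.ncard := by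
  by_cases hall : ∀ γ : ℂ ≃+* ℂ, act τ (act γ a) = act γ a
  · exfalso
    let T2 : Submodule ℚ (ℂ →₀ ℚ) :=
      { carrier := {b | ∀ γ : ℂ ≃+* ℂ, act τ (act γ b) = act γ b}
        add_mem' := by
          intro b c hb hc γ
          rw [map_add, map_add, hb γ, hc γ]
        zero_mem' := by
          intro γ
          rw [map_zero, map_zero]
        smul_mem' := by
          intro c b hb γ
          rw [map_smul, map_smul, hb γ] }
    have hT2 : Stable T2 := by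
      intro σ b hb γ
      have h1 := hb (σ.trans γ)
      rwa [act_mul] at h1
    have hres : res (R j) a ∈ T2 := by
      intro γ
      rw [← (h j).res_act, ← (h j).res_act, hall γ]
    have hle := (h j).V_le_of_ne (hg j) (hP j) hT2 hres ((h j).res_mem haU.2) hj
    have h1 := hle ((h j).e_mem hy) (RingEquiv.refl ℂ)
    rw [(h j).act_e _ hy] at h1
    have h2 : ((RingEquiv.refl ℂ : ℂ ≃+* ℂ) y) = y := rfl
    rw [h2, (h j).act_e _ hy] at h1
    have h3 := DFunLike.congr_fun h1 y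
    rw [e_self ((h j).nonreal y hy), e_apply, if_neg hτy] at h3
    split_ifs at h3 <;> norm_num at h3
  · push Not at hall
    obtain ⟨γ, hγ⟩ := hall
    refine ⟨act τ (act γ a) - act γ a, T.sub_mem (hT τ _ (hT γ a haT)) (hT γ a haT),
      (V (⋃ i, R i)).sub_mem (act_mem_union h τ (act_mem_union h γ haU)) (act_mem_union h γ haU),
      sub_ne_zero.2 hγ, ?_⟩
    refine Set.ncard_lt_ncard ?_ (Set.toFinite _)
    refine ⟨fun k hk hk0 => hk ?_, fun hsub => ?_⟩
    · rw [res_sub, (h k).res_act, (h k).res_act, hk0, map_zero, map_zero, sub_zero]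
    · have h1 := hsub (show i ∈ {k | res (R k) a ≠ 0} from hi)
      apply h1
      rw [res_sub, (h i).res_act_fix hτ, sub_self]

/-- **A stable space which meets the odd functions on a union of orbits contains all odd
functions on one of the orbits.** -/
theorem exists_V_le [Finite I] {g : I → ℕ} (hg : ∀ i, (R i).ncard = 2 * g i)
    (hP : ∀ i, Prim (R i) (g i))
    (hK : ∀ i j, i ≠ j →
      IntermediateField.adjoin ℚ (R i) ≠ IntermediateField.adjoin ℚ (R j))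
    {T : Submodule ℚ (ℂ →₀ ℚ)} (hT : Stable T) (n : ℕ) :
    ∀ a : ℂ →₀ ℚ, {k | res (R k) a ≠ 0}.ncard ≤ n → a ∈ T → a ∈ V (⋃ i, R i) → a ≠ 0 →
      ∃ i, V (R i) ≤ T := by
  have hsome : ∀ a : ℂ →₀ ℚ, a ∈ V (⋃ i, R i) → ∀ x, a x ≠ 0 →
      ∃ i, x ∈ R i ∧ res (R i) a ≠ 0 := by
    intro a haU x hx
    have hxU : x ∈ ⋃ i, R i := by
      by_contra hcon
      exact hx (haU.1 x hcon)
    obtain ⟨i, hi⟩ := Set.mem_iUnion.1 hxU
    refine ⟨i, hi, fun h1 => hx ?_⟩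
    rw [← res_of_mem a hi, h1]
    rfl
  have hex : ∀ a : ℂ →₀ ℚ, a ≠ 0 → ∃ x, a x ≠ 0 := by
    intro a ha
    by_contra hcon
    push Not at hcon
    exact ha (Finsupp.ext hcon)
  induction n with
  | zero =>
    intro a hn haT haU ha
    obtain ⟨x, hx⟩ := hex a ha
    obtain ⟨i, -, hi⟩ := hsome a haU x hx
    have h1 : ({k | res (R k) a ≠ 0} : Set I) = ∅ :=
      (Set.ncard_eq_zero (Set.toFinite _)).1 (Nat.le_zero.1 hn)
    have h2 : i ∈ {k | res (R k) a ≠ 0} := hi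
    rw [h1] at h2
    exact absurd h2 (Set.notMem_empty i)
  | succ n ih =>
    intro a hn haT haU ha
    obtain ⟨x, hx⟩ := hex a ha
    obtain ⟨i, -, hi⟩ := hsome a haU x hx
    by_cases huniq : ∀ j, res (R j) a ≠ 0 → j = i
    · refine ⟨i, ?_⟩
      have h1 : res (R i) a = a := by
        ext y
        by_cases hy : y ∈ R i
        · exact res_of_mem a hy
        · rw [res_of_notMem a hy]
          by_contra hcon
          obtain ⟨j, hyj, hj⟩ := hsome a haU y (fun h2 => hcon h2.symm)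
          exact hy (huniq j hj ▸ hyj)
      have h2 := (h i).res_mem haU.2
      rw [h1] at h2
      exact (h i).V_le_of_ne (hg i) (hP i) hT haT h2 ha
    · push Not at huniq
      obtain ⟨j, hj, hji⟩ := huniq
      obtain ⟨b, hbT, hbU, hb, hlt⟩ : ∃ b ∈ T, b ∈ V (⋃ i, R i) ∧ b ≠ 0 ∧
          {k | res (R k) b ≠ 0}.ncard < {k | res (R k) a ≠ 0}.ncard := by
        rcases exists_sep (hK i j hji.symm) with ⟨τ, hτ, y, hy, hτy⟩ | ⟨τ, hτ, y, hy, hτy⟩
        · exact exists_smaller h hg hP hT haT haU hi hj hτ hy hτy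
        · exact exists_smaller h hg hP hT haT haU hj hi hτ hy hτy
      exact ih b (by omega) hbT hbU hb

end multi

end Pool.Agent.K7.H59.PD
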