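import Mathlib
import Pool.Agent.K7.H59.PD.Multi

/-!
# The multiplicative group of `ℂ` modulo torsion, tensored with `ℚ`
-/

set_option autoImplicit false

namespace Pool.Agent.K7.H59.PD

open Polynomial Module ComplexConjugate TensorProduct

/-- The multiplicative group tensored with `ℚ`. -/
abbrev MM : Type := ℚ ⊗[ℤ] Additive ℂˣ

open Classical in
/-- The class of a nonzero number (and zero for zero). -/
noncomputable def lg0 (z : ℂ) : MM :=
  if h : z = 0 then 0 else (1 : ℚ) ⊗ₜ[ℤ] Additive.ofMul (Units.mk0 z h)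

theorem lg0_of_ne {z : ℂ} (h : z ≠ 0) :
    lg0 z = (1 : ℚ) ⊗ₜ[ℤ] Additive.ofMul (Units.mk0 z h) := dif_neg h

theorem lg0_zero : lg0 0 = 0 := dif_pos rfl

theorem lg0_mul {z w : ℂ} (hz : z ≠ 0) (hw : w ≠ 0) : lg0 (z * w) = lg0 z + lg0 w := by
  rw [lg0_of_ne hz, lg0_of_ne hw, lg0_of_ne (mul_ne_zero hz hw), ← TensorProduct.tmul_add,
    ← ofMul_mul]
  congr 2
  exact Units.ext rfl

theorem lg0_one : lg0 1 = 0 := by
  have h := lg0_mul (one_ne_zero : (1 : ℂ) ≠ 0) one_ne_zero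
  rw [mul_one] at h
  exact left_eq_add.1 h

theorem lg0_pow {z : ℂ} (hz : z ≠ 0) (n : ℕ) : lg0 (z ^ n) = (n : ℚ) • lg0 z := by
  induction n with
  | zero => rw [pow_zero, lg0_one, Nat.cast_zero, zero_smul]
  | succ n ih =>
    rw [pow_succ, lg0_mul (pow_ne_zero n hz) hz, ih, Nat.cast_succ, add_smul, one_smul]

theorem lg0_inv {z : ℂ} (hz : z ≠ 0) : lg0 z⁻¹ = - lg0 z := by
  have h := lg0_mul hz (inv_ne_zero hz)
  rw [mul_inv_cancel₀ hz, lg0_one] at h
  exact (neg_eq_of_add_eq_zero_right h.symm).symm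

theorem lg0_zpow {z : ℂ} (hz : z ≠ 0) (n : ℤ) : lg0 (z ^ n) = (n : ℚ) • lg0 z := by
  obtain ⟨m, rfl | rfl⟩ := n.eq_nat_or_neg
  · rw [zpow_natCast, lg0_pow hz]
    simp
  · rw [zpow_neg, zpow_natCast, lg0_inv (pow_ne_zero m hz), lg0_pow hz]
    simp

theorem lg0_prod {ι : Type*} (S : Finset ι) (F : ι → ℂ) (hF : ∀ i ∈ S, F i ≠ 0) :
    lg0 (∏ i ∈ S, F i) = ∑ i ∈ S, lg0 (F i) := by
  classical
  induction S using Finset.induction_on with
  | empty => simp [lg0_one]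
  | insert i S hi ih =>
    rw [Finset.prod_insert hi, Finset.sum_insert hi, lg0_mul, ih]
    · intro j hj
      exact hF j (Finset.mem_insert_of_mem hj)
    · exact hF i (Finset.mem_insert_self i S)
    · exact Finset.prod_ne_zero_iff.2 fun j hj => hF j (Finset.mem_insert_of_mem hj)

theorem eq_one_of_lg0 {z : ℂ} (hz : z ≠ 0) (h : lg0 z = 0) : ∃ n : ℕ, 0 < n ∧ z ^ n = 1 := by
  rw [lg0_of_ne hz] at h
  have hloc : IsLocalizedModule (nonZeroDivisors ℤ)
      (TensorProduct.mk ℤ ℚ (Additive ℂˣ) 1) :=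
    (isLocalizedModule_iff_isBaseChange (nonZeroDivisors ℤ) ℚ _).2
      (TensorProduct.isBaseChange ℤ (Additive ℂˣ) ℚ)
  obtain ⟨⟨c, hc⟩, h1⟩ := (IsLocalizedModule.eq_zero_iff (nonZeroDivisors ℤ)
    (TensorProduct.mk ℤ ℚ (Additive ℂˣ) 1)).1 h
  have hc0 : c ≠ 0 := nonZeroDivisors.ne_zero hc
  have h2 : (Units.mk0 z hz) ^ c = 1 := by
    have h3 : c • Additive.ofMul (Units.mk0 z hz) = 0 := h1
    rw [← ofMul_zpow] at h3
    exact ofMul_eq_zero.1 h3
  have h4 : z ^ c = 1 := by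
    have h5 := congrArg (fun u : ℂˣ => (u : ℂ)) h2
    simpa using h5
  refine ⟨c.natAbs, Int.natAbs_pos.2 hc0, ?_⟩
  rcases Int.natAbs_eq c with h5 | h5
  · rw [h5, zpow_natCast] at h4
    exact h4
  · rw [h5, zpow_neg, zpow_natCast, inv_eq_one] at h4
    exact h4

/-- The action of the automorphisms. -/
noncomputable def actM (σ : ℂ ≃+* ℂ) : MM →ₗ[ℚ] MM :=
  LinearMap.baseChange ℚ (MonoidHom.toAdditive (Units.map (σ : ℂ →* ℂ))).toIntLinearMap

theorem actM_lg0 (σ : ℂ ≃+* ℂ) (z : ℂ) : actM σ (lg0 z) = lg0 (σ z) := by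
  by_cases hz : z = 0
  · rw [hz, map_zero, lg0_zero, map_zero]
  · have hσ : σ z ≠ 0 := by
      rw [Ne, map_eq_zero_iff σ σ.injective]
      exact hz
    rw [lg0_of_ne hz, lg0_of_ne hσ, actM, LinearMap.baseChange_tmul]
    congr 1
    change Additive.ofMul (Units.map (σ : ℂ →* ℂ) (Units.mk0 z hz)) = _
    congr 1
    exact Units.ext rfl

/-- The class of the product of the powers. -/
noncomputable def PP : (ℂ →₀ ℚ) →ₗ[ℚ] MM := Finsupp.linearCombination ℚ lg0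

theorem PP_single (z : ℂ) (c : ℚ) : PP (Finsupp.single z c) = c • lg0 z :=
  Finsupp.linearCombination_single ℚ c z

theorem PP_e (z : ℂ) : PP (e z) = lg0 z - lg0 (conj z) := by
  rw [e, map_sub, PP_single, PP_single, one_smul, one_smul]

theorem PP_act (σ : ℂ ≃+* ℂ) (a : ℂ →₀ ℚ) : PP (act σ a) = actM σ (PP a) := by
  have h : PP.comp (act σ) = (actM σ).comp PP := by
    refine Finsupp.lhom_ext fun z c => ?_
    rw [LinearMap.comp_apply, LinearMap.comp_apply, act_single, PP_single, PP_single, map_smul,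
      actM_lg0]
  exact LinearMap.congr_fun h a

/-- not supersingular -/
def NotSS (q : ℕ) (R : Set ℂ) : Prop := ∀ x ∈ R, ∀ n : ℕ, 0 < n → x ^ (2 * n) ≠ (q : ℂ) ^ n

section orbit

variable {q : ℕ} {R : Set ℂ} (h : Orbit q R)

include h

theorem Orbit.PP_e_ne (hss : NotSS q R) {x : ℂ} (hx : x ∈ R) : PP (e x) ≠ 0 := by
  intro h1
  have hx0 := h.ne_zero hx
  have hc0 := h.ne_zero (h.conj_mem hx)
  have h2 : lg0 (x * (conj x)⁻¹) = 0 := by
    rw [lg0_mul hx0 (inv_ne_zero hc0), lg0_inv hc0, ← sub_eq_add_neg, ← PP_e, h1]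
  obtain ⟨n, hn, h3⟩ := eq_one_of_lg0 (mul_ne_zero hx0 (inv_ne_zero hc0)) h2
  apply hss x hx n hn
  rw [← h.norm x hx, mul_pow]
  rw [mul_pow, inv_pow, mul_inv_eq_one₀ (pow_ne_zero n hc0)] at h3
  rw [two_mul, pow_add]
  congr 1

/-- The classes of the odd functions are not zero. -/
theorem Orbit.PP_ne (hss : NotSS q R) {g : ℕ} (hg : R.ncard = 2 * g) (hP : Prim R g)
    {a : ℂ →₀ ℚ} (ha : a ∈ V R) (h0 : PP a = 0) : a = 0 := by
  by_contra hne
  have hT : Stable (LinearMap.ker PP) := by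
    intro σ b hb
    rw [LinearMap.mem_ker, PP_act, LinearMap.mem_ker.1 hb, map_zero]
  obtain ⟨x, hx⟩ := h.ne
  exact h.PP_e_ne hss hx ((h.V_le_of_ne hg hP hT h0 ha hne) (h.e_mem hx))

end orbit

end Pool.Agent.K7.H59.PD
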