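import Mathlib
import Pool.Agent.K7.H59.PD.Log
import Pool.Agent.TH44.SS.Times

/-!
# No relations between the numbers of the orbits and numbers of small rank over a number field
-/

set_option autoImplicit false

namespace Pool.Agent.K7.H59.PD

open Polynomial Module ComplexConjugate TensorProduct Pool.Agent.W484.TB Pool.Agent.W484.AA

theorem Orbit.fix_of {q : ℕ} {R : Set ℂ} (h : Orbit q R) {g : ℕ} (hg : R.ncard = 2 * g)
    (hP : Prim R g) {τ : ℂ ≃+* ℂ} {a : ℂ →₀ ℚ} (ha : a ∈ V R) (hne : a ≠ 0)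
    (hall : ∀ γ : ℂ ≃+* ℂ, act τ (act γ a) = act γ a) : ∀ y ∈ R, τ y = y := by
  intro y hy
  let T2 : Submodule ℚ (ℂ →₀ ℚ) :=
    { carrier := {b | ∀ γ : ℂ ≃+* ℂ, act τ (act γ b) = act γ b}
      add_mem' := by
        intro b c hb hc γ
        rw [map_add, map_add, hb γ, hc γ]
      zero_mem' := by
        intro γ
        rw [map_zero, map_zero]
      smul_mem' := by
        intro c b hb γ
        rw [map_smul, map_smul, hb γ] }
  have hT2 : Stable T2 := by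
    intro σ b hb γ
    have h1 := hb (σ.trans γ)
    rwa [act_mul] at h1
  have hle := h.V_le_of_ne hg hP hT2 (a := a) hall ha hne
  have h1 := hle (h.e_mem hy) (RingEquiv.refl ℂ)
  rw [h.act_e _ hy] at h1
  have h2 : ((RingEquiv.refl ℂ : ℂ ≃+* ℂ) y) = y := rfl
  rw [h2, h.act_e _ hy] at h1
  by_contra hτy
  have h3 := DFunLike.congr_fun h1 y
  rw [e_self (h.nonreal y hy), e_apply, if_neg hτy] at h3
  split_ifs at h3 <;> norm_num at h3

theorem map_mem_gal (E : IntermediateField ℚ ℂ) (γ : ℂ ≃+* ℂ) {y : ℂ} (hy : y ∈ E) :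
    γ y ∈ gal E := by
  let φ : E →ₐ[ℚ] ℂ := ((γ : ℂ →+* ℂ).comp (algebraMap E ℂ)).toRatAlgHom
  exact φ.fieldRange_le_normalClosure ⟨⟨y, hy⟩, rfl⟩

theorem Orbit.absurd {q : ℕ} {R : Set ℂ} (h : Orbit q R) {g : ℕ} (hg : R.ncard = 2 * g)
    (hP : Prim R g) (hss : NotSS q R) (E : IntermediateField ℚ ℂ)
    (hE : ¬ R ⊆ (gal E : Set ℂ)) (r : ℕ) (hr : r < g) (u : Fin r → ℂ)
    (hV : ∀ a ∈ V R, PP a ∈ Submodule.span ℚ (lg0 '' (E : Set ℂ)) ⊔
      Submodule.span ℚ (Set.range fun j => lg0 (u j))) : False := by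
  set ME := Submodule.span ℚ (lg0 '' (E : Set ℂ)) with hME
  set Mu := Submodule.span ℚ (Set.range fun j => lg0 (u j)) with hMu
  have _ := h.finiteDimensional
  -- a relation over `E`
  obtain ⟨a, haV, hane, haE⟩ : ∃ a ∈ V R, a ≠ 0 ∧ PP a ∈ ME := by
    by_contra hcon
    push Not at hcon
    let φ : V R →ₗ[ℚ] (MM ⧸ ME) := ME.mkQ.comp (PP.comp (V R).subtype)
    have hφ : ∀ a : V R, φ a = ME.mkQ (PP a) := fun a => rfl
    have hinj : Function.Injective φ := by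
      rw [← LinearMap.ker_eq_bot, LinearMap.ker_eq_bot']
      intro a ha
      by_contra hne
      refine hcon a a.2 (fun h1 => hne (Subtype.ext h1)) ?_
      rw [hφ, Submodule.mkQ_apply, Submodule.Quotient.mk_eq_zero] at ha
      exact ha
    have hrange : LinearMap.range φ ≤ Mu.map ME.mkQ := by
      rintro _ ⟨a, rfl⟩
      obtain ⟨y, hy, z, hz, hyz⟩ := Submodule.mem_sup.1 (hV a a.2)
      refine ⟨z, hz, ?_⟩
      rw [hφ, ← hyz, map_add]
      have h1 : ME.mkQ y = 0 := by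
        rw [Submodule.mkQ_apply, Submodule.Quotient.mk_eq_zero]
        exact hy
      rw [h1, zero_add]
    have _ : FiniteDimensional ℚ Mu := FiniteDimensional.span_of_finite ℚ (Set.finite_range _)
    have h1 := Submodule.finrank_mono hrange
    rw [LinearMap.finrank_range_of_inj hinj, h.finrank_V hg] at h1
    have h2 : finrank ℚ (Mu.map ME.mkQ) ≤ finrank ℚ Mu := Submodule.finrank_map_le _ _
    have h3 : finrank ℚ Mu ≤ r := by
      have h4 := finrank_range_le_card (R := ℚ) (fun j : Fin r => lg0 (u j))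
      rw [Fintype.card_fin] at h4
      exact h4
    omega
  -- the automorphisms fixing the Galois closure fix the orbit
  have hfix : ∀ τ : ℂ ≃+* ℂ, (∀ y ∈ gal E, τ y = y) → ∀ x ∈ R, τ x = x := by
    intro τ hτ
    refine h.fix_of hg hP haV hane fun γ => ?_
    have h1 : ∀ m ∈ ME, actM τ (actM γ m) = actM γ m := by
      intro m hm
      have h2 : ME ≤ LinearMap.ker ((actM τ).comp (actM γ) - actM γ) := by
        refine Submodule.span_le.2 ?_
        rintro _ ⟨y, hy, rfl⟩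
        rw [SetLike.mem_coe, LinearMap.mem_ker, LinearMap.sub_apply, LinearMap.comp_apply,
          actM_lg0, actM_lg0, hτ _ (map_mem_gal E γ hy), sub_self]
      have h3 := LinearMap.mem_ker.1 (h2 hm)
      rw [LinearMap.sub_apply, LinearMap.comp_apply, sub_eq_zero] at h3
      exact h3
    have h2 : act τ (act γ a) - act γ a ∈ V R :=
      (V R).sub_mem (h.act_mem τ (h.act_mem γ haV)) (h.act_mem γ haV)
    refine sub_eq_zero.1 (h.PP_ne hss hg hP h2 ?_)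
    rw [map_sub, PP_act, PP_act, h1 _ haE, sub_self]
  obtain ⟨x, hx, hxn⟩ := Set.not_subset.1 hE
  obtain ⟨τ, hτ, hτx⟩ := Pool.Agent.TH119.MX.exists_move (F := (gal E).toSubfield) hxn
  exact hτx (hfix τ hτ x hx)

/-- **No relation.** -/
theorem no_relation {I : Type*} [Finite I] {q : ℕ} {R : I → Set ℂ} (h : ∀ i, Orbit q (R i))
    {g : I → ℕ} (hg : ∀ i, (R i).ncard = 2 * g i) (hP : ∀ i, Prim (R i) (g i))
    (hK : ∀ i j, i ≠ j →
      IntermediateField.adjoin ℚ (R i) ≠ IntermediateField.adjoin ℚ (R j))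
    (hss : ∀ i, NotSS q (R i)) (E : IntermediateField ℚ ℂ)
    (hE : ∀ i, ¬ R i ⊆ (gal E : Set ℂ)) (r : ℕ) (hr : ∀ i, r < g i) (χ : ℚ[X])
    (hrank : RankLEOver E r {ρ : ℂ | aeval ρ χ = 0}) {a : ℂ →₀ ℚ} (haU : a ∈ V (⋃ i, R i))
    (ha : a ≠ 0) : PP a ∉ Submodule.span ℚ (lg0 '' {ρ : ℂ | aeval ρ χ = 0}) := by
  intro hmem
  have hstab : ∀ (σ : ℂ ≃+* ℂ) (ρ : ℂ), aeval ρ χ = 0 → aeval (σ ρ) χ = 0 := by
    intro σ ρ hρ
    have h1 := Polynomial.aeval_algHom_apply ((σ : ℂ →+* ℂ).toRatAlgHom) ρ χ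
    rw [hρ, map_zero] at h1
    exact h1
  set T : Submodule ℚ (ℂ →₀ ℚ) :=
    (Submodule.span ℚ (lg0 '' {ρ : ℂ | aeval ρ χ = 0})).comap PP with hT
  have hTS : Stable T := by
    intro σ b hb
    rw [hT, Submodule.mem_comap, PP_act]
    have h1 : Submodule.span ℚ (lg0 '' {ρ : ℂ | aeval ρ χ = 0}) ≤
        (Submodule.span ℚ (lg0 '' {ρ : ℂ | aeval ρ χ = 0})).comap (actM σ) := by
      refine Submodule.span_le.2 ?_
      rintro _ ⟨ρ, hρ, rfl⟩
      rw [SetLike.mem_coe, Submodule.mem_comap, actM_lg0]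
      exact Submodule.subset_span ⟨σ ρ, hstab σ ρ hρ, rfl⟩
    exact h1 hb
  obtain ⟨i, hi⟩ := exists_V_le h hg hP hK hTS _ a le_rfl hmem haU ha
  obtain ⟨u, hu0, hu⟩ := id hrank
  refine (h i).absurd (hg i) (hP i) (hss i) E (hE i) r (hr i) u fun b hb => ?_
  have h1 : PP b ∈ Submodule.span ℚ (lg0 '' {ρ : ℂ | aeval ρ χ = 0}) := hi hb
  revert h1
  generalize PP b = m
  intro h1
  have h2 : Submodule.span ℚ (lg0 '' {ρ : ℂ | aeval ρ χ = 0}) ≤
      Submodule.span ℚ (lg0 '' (E : Set ℂ)) ⊔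
      Submodule.span ℚ (Set.range fun j => lg0 (u j)) := by
    refine Submodule.span_le.2 ?_
    rintro _ ⟨ρ, hρ, rfl⟩
    obtain ⟨N, y, m, hN, hyE, hy0, hρN⟩ := hu ρ hρ
    have hρ0 : ρ ≠ 0 := by
      rintro rfl
      exact zero_not_rank_over hrank hρ
    have h3 := congrArg lg0 hρN
    rw [lg0_pow hρ0, lg0_mul hy0 (Finset.prod_ne_zero_iff.2 fun j _ => zpow_ne_zero _ (hu0 j)),
      lg0_prod _ _ (fun j _ => zpow_ne_zero _ (hu0 j))] at h3
    have h4 : (N : ℚ) ≠ 0 := by exact_mod_cast hN.ne'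
    have h5 : lg0 ρ = (N : ℚ)⁻¹ • (lg0 y + ∑ j, lg0 (u j ^ m j)) := by
      rw [← h3, smul_smul, inv_mul_cancel₀ h4, one_smul]
    rw [SetLike.mem_coe, h5]
    refine Submodule.smul_mem _ _ (Submodule.add_mem_sup (Submodule.subset_span ⟨y, hyE, rfl⟩)
      (Submodule.sum_mem _ fun j _ => ?_))
    rw [lg0_zpow (hu0 j)]
    exact Submodule.smul_mem _ _ (Submodule.subset_span ⟨j, rfl⟩)
  exact h2 h1

/-- the relations of the lists -/
theorem exactPair {I : Type} [Finite I] {q : ℕ} {f : I → ℤ[X]}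
    (h : ∀ i, Orbit q {z : ℂ | aeval z (f i) = 0}) {g : I → ℕ}
    (hg : ∀ i, ({z : ℂ | aeval z (f i) = 0}).ncard = 2 * g i)
    (hP : ∀ i, Prim {z : ℂ | aeval z (f i) = 0} (g i))
    (hK : ∀ i j, i ≠ j →
      IntermediateField.adjoin ℚ {z : ℂ | aeval z (f i) = 0} ≠
        IntermediateField.adjoin ℚ {z : ℂ | aeval z (f j) = 0})
    (hss : ∀ i, NotSS q {z : ℂ | aeval z (f i) = 0}) (E : IntermediateField ℚ ℂ)
    (hE : ∀ i, ¬ {z : ℂ | aeval z (f i) = 0} ⊆ (gal E : Set ℂ)) (r : ℕ) (hr : ∀ i, r < g i)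
    (s : ℕ) (hs : 0 < s) (χ : ℚ[X])
    (hrank : RankLEOver E r {ρ : ℂ | aeval ρ χ = 0}) (ρ : ℂ) (hρ : aeval ρ χ = 0) :
    ExactPair (fun z : {z : ℂ // ∃ i, aeval z (f i) = 0} => (z : ℂ) ^ s)
      ((q : ℂ) ^ s) ρ := by
  intro n c N hN hn ys hlen hrel hpw
  have hρ0 : ρ ≠ 0 := by
    rintro rfl
    exact zero_not_rank_over hrank hρ
  set κ : ℂ ≃+* ℂ := starRingAut with hκ
  have hκa : ∀ z : ℂ, κ z = conj z := fun z => rfl
  have hmem : ∀ y : {z : ℂ // ∃ i, aeval z (f i) = 0},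
      (y : ℂ) ≠ 0 ∧ (y : ℂ) * conj (y : ℂ) = q ∧ conj (y : ℂ) ≠ y ∧
        e (y : ℂ) ∈ V (⋃ i, {z : ℂ | aeval z (f i) = 0}) := by
    rintro ⟨y, i, hi⟩
    refine ⟨(h i).ne_zero hi, (h i).norm y hi, (h i).nonreal y hi, fun x hx => ?_, fun x => ?_⟩
    · exact ((h i).e_mem hi).1 x fun h1 => hx (Set.mem_iUnion.2 ⟨i, h1⟩)
    · exact ((h i).e_mem hi).2 x
  have hq0 : (q : ℂ) ≠ 0 := by
    obtain ⟨y, l, rfl⟩ := List.exists_cons_of_length_pos (hn.trans_eq hlen.symm)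
    obtain ⟨i, -⟩ := y.2
    exact_mod_cast (h i).pos.ne'
  set a : ℂ →₀ ℚ := (ys.map fun y : {z : ℂ // ∃ i, aeval z (f i) = 0} => e (y : ℂ)).sum with ha
  have haU : a ∈ V (⋃ i, {z : ℂ | aeval z (f i) = 0}) := by
    refine list_sum_mem fun b hb => ?_
    obtain ⟨y, -, rfl⟩ := List.mem_map.1 hb
    exact (hmem y).2.2.2
  have hane : a ≠ 0 := by
    obtain ⟨y₀, l, rfl⟩ := List.exists_cons_of_length_pos (hn.trans_eq hlen.symm)
    rw [List.pairwise_cons] at hpw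
    have h1 : 0 ≤ ((l.map fun y : {z : ℂ // ∃ i, aeval z (f i) = 0} => e (y : ℂ)).sum) (y₀ : ℂ) := by
      have h2 : ∀ y ∈ l, conj (y : ℂ) ≠ (y₀ : ℂ) := by
        intro y hy h3
        apply hpw.1 y hy
        rw [← mul_pow, ← h3, mul_comm, (hmem y).2.1]
      clear hpw hrel ha haU hlen a
      induction l with
      | nil => simp
      | cons y l ih =>
        rw [List.map_cons, List.sum_cons, Finsupp.add_apply]
        refine add_nonneg ?_ (ih fun z hz => h2 z (List.mem_cons_of_mem _ hz))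
        rw [e_apply, if_neg (h2 y List.mem_cons_self), sub_zero]
        split_ifs <;> norm_num
    intro h2
    have h3 := DFunLike.congr_fun h2 (y₀ : ℂ)
    rw [ha, List.map_cons, List.sum_cons, Finsupp.add_apply, e_self (hmem y₀).2.2.1] at h3
    have h4 : (0 : ℂ →₀ ℚ) (y₀ : ℂ) = 0 := rfl
    rw [h4] at h3
    linarith
  -- the relation
  have hprod : ∀ l : List {z : ℂ // ∃ i, aeval z (f i) = 0},
      (l.map (fun z : {z : ℂ // ∃ i, aeval z (f i) = 0} => (z : ℂ) ^ s)).prod ≠ 0 ∧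
      lg0 (l.map (fun z : {z : ℂ // ∃ i, aeval z (f i) = 0} => (z : ℂ) ^ s)).prod - actM κ (lg0 (l.map (fun z : {z : ℂ // ∃ i, aeval z (f i) = 0} => (z : ℂ) ^ s)).prod) =
        (s : ℚ) • PP ((l.map fun y : {z : ℂ // ∃ i, aeval z (f i) = 0} => e (y : ℂ)).sum) := by
    intro l
    induction l with
    | nil =>
      refine ⟨by simp, ?_⟩
      simp [lg0_one]
    | cons y l ih =>
      have hy0 : (y : ℂ) ^ s ≠ 0 := pow_ne_zero _ (hmem y).1
      rw [List.map_cons, List.prod_cons, List.map_cons, List.sum_cons]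
      refine ⟨mul_ne_zero hy0 ih.1, ?_⟩
      rw [lg0_mul hy0 ih.1, map_add, map_add, smul_add, ← ih.2, PP_e, lg0_pow (hmem y).1,
        map_smul, actM_lg0, hκa, smul_sub]
      abel
  have hP0 := (hprod ys).1
  have h1 := congrArg lg0 hrel
  rw [lg0_pow (mul_ne_zero hP0 hρ0), lg0_pow (zpow_ne_zero _ (pow_ne_zero _ hq0))] at h1
  have hN0 : (N : ℚ) ≠ 0 := by exact_mod_cast hN.ne'
  have h2 := smul_right_injective MM hN0 h1
  rw [lg0_mul hP0 hρ0] at h2
  have h3 := congrArg (actM κ) h2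
  have h4 : actM κ (lg0 (((q : ℂ) ^ s) ^ c)) = lg0 (((q : ℂ) ^ s) ^ c) := by
    rw [actM_lg0, map_zpow₀, map_pow, map_natCast]
  rw [h4, map_add, actM_lg0 κ ρ] at h3
  have h5 : (s : ℚ) • PP a = lg0 (κ ρ) - lg0 ρ := by
    rw [ha, ← (hprod ys).2]
    have h6 := h2.trans h3.symm
    rw [sub_eq_sub_iff_add_eq_add, h6]
    abel
  have hs0 : (s : ℚ) ≠ 0 := by exact_mod_cast hs.ne'
  have h6 : PP a = (s : ℚ)⁻¹ • (lg0 (κ ρ) - lg0 ρ) := by
    rw [← h5, smul_smul, inv_mul_cancel₀ hs0, one_smul]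
  refine no_relation h hg hP hK hss E hE r hr χ hrank haU hane ?_
  rw [h6]
  have hκρ : aeval (κ ρ) χ = 0 := by
    have h7 := Polynomial.aeval_algHom_apply ((κ : ℂ →+* ℂ).toRatAlgHom) ρ χ
    rw [hρ, map_zero] at h7
    exact h7
  exact Submodule.smul_mem _ _ (Submodule.sub_mem _ (Submodule.subset_span ⟨_, hκρ, rfl⟩)
    (Submodule.subset_span ⟨_, hρ, rfl⟩))

end Pool.Agent.K7.H59.PD
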