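import Mathlib
import Pool.Agent.K7.H59.PD.Rel
import Pool.Agent.R915.E3

/-!
# The roots of irreducible Weil polynomials
-/

set_option autoImplicit false

namespace Pool.Agent.K7.H59.PD

open Polynomial Module ComplexConjugate TensorProduct Pool.Agent.W484.TB Pool.Agent.W484.AA
  Pool.Agent.TH44.SS

/-- The complex roots. -/
def complexRoots (f : ℤ[X]) : Set ℂ := {z : ℂ | aeval z f = 0}

/-- `f` is an irreducible monic integral polynomial of degree `2 g`, all its complex roots have
absolute value `√q`, and no root is `√q` times a root of unity: the characteristic polynomial of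
Frobenius of an abelian variety of dimension `g` over the field with `q` elements which is simple
and not supersingular. -/
structure IsWeil (q g : ℕ) (f : ℤ[X]) : Prop where
  monic : f.Monic
  irreducible : Irreducible f
  degree : f.natDegree = 2 * g
  weil : ∀ z ∈ complexRoots f, ‖z‖ ^ 2 = q
  not_supersingular : ∀ z ∈ complexRoots f, ∀ n : ℕ, 0 < n → z ^ (2 * n) ≠ (q : ℂ) ^ n

theorem complexRoots_eq {f : ℤ[X]} (hf : f.Monic) :
    complexRoots f = (f.map (Int.castRingHom ℚ)).rootSet ℂ := by
  ext z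
  rw [Polynomial.mem_rootSet]
  have h1 : aeval z (f.map (Int.castRingHom ℚ)) = aeval z f := by
    have h2 := Polynomial.aeval_map_algebraMap (A := ℚ) (B := ℂ) z f
    rwa [show algebraMap ℤ ℚ = Int.castRingHom ℚ from rfl] at h2
  rw [h1]
  exact ⟨fun h => ⟨(hf.map _).ne_zero, h⟩, fun h => h.2⟩

theorem IsWeil.irreducible_map {q g : ℕ} {f : ℤ[X]} (h : IsWeil q g f) :
    Irreducible (f.map (Int.castRingHom ℚ)) :=
  (h.monic.irreducible_iff_irreducible_map_fraction_map (K := ℚ)).1 h.irreducible

theorem IsWeil.ncard {q g : ℕ} {f : ℤ[X]} (h : IsWeil q g f) : (complexRoots f).ncard = 2 * g := by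
  rw [complexRoots_eq h.monic, ← Nat.card_coe_set_eq, Nat.card_eq_fintype_card,
    Polynomial.card_rootSet_eq_natDegree h.irreducible_map.separable (IsAlgClosed.splits _),
    h.monic.natDegree_map, h.degree]

theorem IsWeil.orbit {q g : ℕ} {f : ℤ[X]} (h : IsWeil q g f) (hq : 0 < q) :
    Orbit q (complexRoots f) where
  fin := by
    rw [complexRoots_eq h.monic]
    exact Polynomial.rootSet_finite _ _
  ne := by
    have h1 : (f.map (algebraMap ℤ ℂ)).degree ≠ 0 := by
      rw [h.monic.degree_map]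
      intro h2
      have h3 := Polynomial.natDegree_eq_of_degree_eq_some h2
      have h4 := h.monic.natDegree_eq_zero.1 h3
      exact h.irreducible.not_isUnit (h4 ▸ isUnit_one)
    obtain ⟨z, hz⟩ := IsAlgClosed.exists_root _ h1
    refine ⟨z, ?_⟩
    rw [IsRoot.def, eval_map_algebraMap] at hz
    exact hz
  stable := by
    intro σ x hx
    have h1 := Polynomial.hom_eval₂ f (algebraMap ℤ ℂ) (σ : ℂ →+* ℂ) x
    have h2 : eval₂ (algebraMap ℤ ℂ) x f = 0 := hx
    rw [h2, map_zero, RingHom.ext_int ((σ : ℂ →+* ℂ).comp (algebraMap ℤ ℂ)) (algebraMap ℤ ℂ)] at h1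
    exact h1.symm
  trans := by
    intro x hx y hy
    have hroot : ∀ z ∈ complexRoots f, aeval z (f.map (Int.castRingHom ℚ)) = 0 := by
      intro z hz
      rw [complexRoots_eq h.monic, Polynomial.mem_rootSet] at hz
      exact hz.2
    have hmin : minpoly ℚ x = f.map (Int.castRingHom ℚ) :=
      (minpoly.eq_of_irreducible_of_monic h.irreducible_map (hroot x hx) (h.monic.map _)).symm
    refine Pool.Agent.R915.exists_conj_aut
      ⟨f.map (Int.castRingHom ℚ), (h.monic.map _).ne_zero, hroot x hx⟩ ?_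
    rw [hmin]
    exact hroot y hy
  norm := by
    intro x hx
    rw [Complex.mul_conj, Complex.normSq_eq_norm_sq]
    have h1 := h.weil x hx
    exact_mod_cast h1
  nonreal := by
    intro x hx h1
    apply h.not_supersingular x hx 1 one_pos
    have h2 : x * conj x = q := by
      rw [Complex.mul_conj, Complex.normSq_eq_norm_sq]
      have h3 := h.weil x hx
      exact_mod_cast h3
    rw [h1] at h2
    rw [mul_one, pow_one, pow_two, h2]
  pos := hq

/-- **The main theorem.** -/
theorem main {I : Type} [Finite I] {q : ℕ} (hq : 0 < q) {g : I → ℕ} {f : I → ℤ[X]}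
    (hf : ∀ i, IsWeil q (g i) (f i)) (hP : ∀ i, Prim (complexRoots (f i)) (g i))
    (hK : ∀ i j, i ≠ j → IntermediateField.adjoin ℚ (complexRoots (f i)) ≠
      IntermediateField.adjoin ℚ (complexRoots (f j)))
    (E : IntermediateField ℚ ℂ) (hE : ∀ i, ¬ complexRoots (f i) ⊆ (gal E : Set ℂ)) (r : ℕ)
    (hr : ∀ i, r < g i) :
    SemisimpleIff E q r f ∧ TateForRankOver E q r f := by
  have hq' : (q : ℂ) ≠ 0 := by exact_mod_cast hq.ne'
  constructor
  · refine semisimpleIff_of E q r f ?_
    intro V _ _ _ F hF s hs H _ _ _ G hG n c hss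
    have hQ : (q : ℂ) ^ s ≠ 0 := pow_ne_zero _ hq'
    obtain ⟨χ, hχ, hχe, hrank⟩ := hG
    exact semisimpleAt_product (F ^ s) _ (span_pow F hF s) ((q : ℂ) ^ s) hQ G
      (fun ρ hρ => exactPair (fun i => (hf i).orbit hq) (fun i => (hf i).ncard) hP hK
        (fun i => (hf i).not_supersingular) E hE r hr s hs χ hrank ρ (hχe ρ hρ)) n c hss
  · intro V _ _ _ F hF s hs H _ _ _ G hG n c N hN u hu
    have hQ : (q : ℂ) ^ s ≠ 0 := pow_ne_zero _ hq'
    obtain ⟨χ, hχ, hχe, hrank⟩ := hG
    exact mem_mixedProducts (F ^ s) _ (span_pow F hF s) ((q : ℂ) ^ s) hQ G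
      (fun ρ hρ => exactPair (fun i => (hf i).orbit hq) (fun i => (hf i).ncard) hP hK
        (fun i => (hf i).not_supersingular) E hE r hr s hs χ hrank ρ (hχe ρ hρ)) n c N hN u hu

end Pool.Agent.K7.H59.PD
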